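import Pool.Agent.H8.ORD.Main

/-!
# Ordered groups of finite special rank: criteria of solubility

`G` is a totally ordered group, the order is invariant under left and right multiplication.
A subgroup is convex if it contains every element between two of its elements
(`Set.OrdConnected`). The hypothesis says that `G` has special rank at most `r`, or only that no
finitely generated subgroup of `G` maps onto the free abelian group of rank `r + 1`.
-/

set_option autoImplicit false

namespace Pool.Agent.Results.MP_563318_al.ConvexChains

/-- **Criteria of solubility.** The conditions are: `G` is soluble; the commutator subgroup is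
nilpotent of class at most `2 r - 1`; all subgroups with two generators are soluble; the convex
subgroups are normal; there are at most `2 r ^ 2 + 1` convex subgroups; there are only countably
many; the chain of convex subgroups contains no copy of `ℚ`; for all `x` and `g` the chain of the
convex subgroups of `⟨x, g⟩` which contain `x` but not `g x g⁻¹` contains no copy of `ℚ`. -/
theorem result (G : Type*) [Group G] [LinearOrder G] [MulLeftMono G] [MulRightMono G] (r : ℕ)
    (hr : (∀ B : Subgroup G, B.FG →
        ∃ s : Finset G, s.card ≤ r ∧ Subgroup.closure (s : Set G) = B) ∨
      (∀ B : Subgroup G, B.FG →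
        ¬ ∃ f : B →* Multiplicative (Fin (r + 1) → ℤ), Function.Surjective f)) :
    List.TFAE [
      Group.IsSolvable G,
      (commutator G).lowerCentralSeries (2 * r - 1) = ⊥,
      ∀ x g : G, Group.IsSolvable (Subgroup.closure ({x, g} : Set G)),
      ∀ C : Subgroup G, (C : Set G).OrdConnected → C.Normal,
      {C : Subgroup G | (C : Set G).OrdConnected}.encard ≤ 2 * r ^ 2 + 1,
      {C : Subgroup G | (C : Set G).OrdConnected}.Countable,
      IsEmpty (ℚ ↪o {C : Subgroup G // (C : Set G).OrdConnected}),
      ∀ x g : G, IsEmpty (ℚ ↪o {C : Subgroup (Subgroup.closure ({x, g} : Set G)) //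
        (C : Set (Subgroup.closure ({x, g} : Set G))).OrdConnected ∧
        x ∈ C.map (Subgroup.closure ({x, g} : Set G)).subtype ∧
        g * x * g⁻¹ ∉ C.map (Subgroup.closure ({x, g} : Set G)).subtype})] :=
  Pool.Agent.H8.ORD.main_tfae G r (hr.elim Pool.Agent.H8.ORD.ns_of_rank id)

end Pool.Agent.Results.MP_563318_al.ConvexChains
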